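import Pool.Agent.Q271.LiouvilleLine

set_option autoImplicit false

namespace Pool.Agent.Results.MP_14d1e0_nt.NoScalarShift

open Q271 Matrix MeasureTheory

/-- The answer to the question is negative for every `n ≥ 2`: for Lebesgue-almost every real
`n × n` matrix `A` no scalar shift `A - l I` is a Liouville matrix. -/
theorem result :
    (∀ n : ℕ, 2 ≤ n → ∀ᵐ A : Fin n → Fin n → ℝ, ∀ l : ℝ,
      ¬ IsLiouville (Matrix.of A - l • (1 : Matrix (Fin n) (Fin n) ℝ))) ∧
    (∀ n : ℕ, 2 ≤ n → ∃ A : Matrix (Fin n) (Fin n) ℝ,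
      {l : ℝ | IsLiouville (A - l • (1 : Matrix (Fin n) (Fin n) ℝ))} = ∅) := by
  have key : ∀ n : ℕ, 2 ≤ n → ∀ᵐ A : Fin n → Fin n → ℝ, ∀ l : ℝ,
      ¬ IsLiouville (Matrix.of A - l • (1 : Matrix (Fin n) (Fin n) ℝ)) := by
    intro n hn
    filter_upwards [ae_line n n hn (fun i j => -(1 : Matrix (Fin n) (Fin n) ℝ) i j)] with A hA l
    have h := hA l
    have e : (Matrix.of (fun i j => A i j + l * (-(1 : Matrix (Fin n) (Fin n) ℝ) i j))) =
        Matrix.of A - l • (1 : Matrix (Fin n) (Fin n) ℝ) := by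
      ext i j
      simp only [Matrix.of_apply, Matrix.sub_apply, Matrix.smul_apply, smul_eq_mul]
      ring
    rw [e] at h
    exact h
  refine ⟨key, fun n hn => ?_⟩
  obtain ⟨A, hA⟩ := (key n hn).exists
  refine ⟨Matrix.of A, ?_⟩
  ext l
  simp only [Set.mem_ofPred_eq, Set.mem_empty_iff_false, iff_false]
  exact hA l

end Pool.Agent.Results.MP_14d1e0_nt.NoScalarShift
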